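import Pool.Agent.V11246.CDefs
import Pool.Agent.H635R2.Statement

/-!
# Forcings with `ccc₃` in a model of ZF: definitions

The language `LSet` of set theory has one binary relation symbol. In a structure `M` for it,
`Mem x y` says that `x` is an element of `y` in the sense of `M`. `Mem`, `LSet` and `IsOrdPair`
are from `Pool.Agent.Helper672.SIK.Plain`, `App`, `IsInj` and `IsOmega` from
`Pool.Agent.H310R3.Cards`, `IsOrdinal`, `IsSuccCard` and `Compat` from
`Pool.Agent.V11246.NDefs`, `NameAt` from `Pool.Agent.V11246.CDefs`, and the class `ZF` of the
models of ZF from `Pool.Agent.H635R2.Statement`.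
-/

namespace Pool.Agent.T2H96.C3

open FirstOrder FirstOrder.Language
open Pool.Agent.Helper672.Plain (LSet Mem IsOrdPair)
open Pool.Agent.H310Cards
open Pool.Agent.V11246 (Compat NameAt)

universe u

variable {M : Type u} [LSet.Structure M]

/-- `P` with the relation `r` (`App r p q`, i.e. `(p, q) ∈ r`, says that `p ≤ q`) is a forcing: a
preordered set with a maximum. -/
structure IsPreForcing (r P : M) : Prop where
  rel : ∀ p q, App r p q → Mem p P ∧ Mem q P
  refl : ∀ p, Mem p P → App r p p
  trans : ∀ p q s, App r p q → App r q s → App r p s
  top : ∃ t, Mem t P ∧ ∀ p, Mem p P → App r p t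

/-- `D` is a predense subset of the forcing: every condition is compatible with an element
of `D`. -/
def IsPredense (r P D : M) : Prop :=
  (∀ d, Mem d D → Mem d P) ∧ ∀ p, Mem p P → ∃ d, Mem d D ∧ Compat r P p d

/-- `ccc₃`: every predense subset `D` of the forcing has a predense subset `D₀` that is countable,
i.e. for which there is an injection to the set `w` of the natural numbers. -/
def IsCCC3 (w r P : M) : Prop :=
  ∀ D, IsPredense r P D → ∃ D₀, (∀ d, Mem d D₀ → Mem d D) ∧ (∃ f, IsInj f D₀ w) ∧
    IsPredense r P D₀

/-- The condition `p` forces that (the set named by) `F` restricts to a surjective function from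
`b` to `k`. For a generic filter `G` the set named by `F` is the set of the pairs `(x, y)` such
that `(q, (x, y)) ∈ F` for some `q ∈ G`; `NameAt F q x y` says that `(q, (x, y)) ∈ F`. -/
structure ForcesSurj (r P p F b k : M) : Prop where
  mem : Mem p P
  func : ∀ s q q' x y y', App r s p → App r s q → App r s q' →
    Mem x b → Mem y k → Mem y' k → NameAt F q x y → NameAt F q' x y' → y = y'
  total : ∀ x s, Mem x b → App r s p →
    ∃ t q y, App r t s ∧ App r t q ∧ Mem y k ∧ NameAt F q x y
  onto : ∀ y s, Mem y k → App r s p →
    ∃ t q x, App r t s ∧ App r t q ∧ Mem x b ∧ NameAt F q x y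

/-- The forcing collapses `w₁` if some condition forces that `w₁` is countable: some condition
forces that some set is a surjective function from `w` to `w₁`. -/
def CollapsesToCountable (w w₁ r P : M) : Prop := ∃ p F, ForcesSurj r P p F w w₁

end Pool.Agent.T2H96.C3
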