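import Pool.Agent.T2H96.C3.Frc
import Pool.Agent.T2H96.C3.Defs
import Pool.Agent.V11246.Nar
import Pool.Agent.V11246.OrdP

/-!
# No collapse of `ω₁` by forcings with `ccc₃`: transfer to models of ZF
-/

set_option maxHeartbeats 1000000
set_option linter.all false
set_option synthInstance.maxSize 2000

namespace Pool.Agent.Helper672.ZFA.V246.T2H96

open FirstOrder FirstOrder.Language
open H635 (IWO)
open Pool.Agent.Helper672.ZFA.V246
open Pool.Agent.H310
open Pool.Agent.H310Cards
open Pool.Agent.V11246 (IsOrdinal IsSuccCard NameAt Compat)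
open Pool.Agent.Helper672.Plain (LSet)
open Pool.Agent.H635Amen (ZF)
open Pool.Agent.T2H96.C3 (IsPreForcing IsPredense IsCCC3 ForcesSurj CollapsesToCountable)

universe u

section

attribute [local instance] Helper672.Plain.toL

variable {M : Type u} [LSet.Structure M] [hZ : ZF M]

local instance instModelT96 : IsModel M := Helper672.Plain.isModel_toL

theorem nameAt_iff' {F q x y : M} : NameAt F q x y ↔ Mem (op q (op x y)) F := by
  unfold NameAt
  constructor
  · rintro ⟨t, h1, h2⟩
    rw [ordPair_iff] at h1
    subst h1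
    exact app_iff.1 h2
  · intro h1
    exact ⟨_, ordPair_iff.2 rfl, app_iff.2 h1⟩

theorem ctb_of_inj {α : Type u} [ITy M α] {f d w : M} (hw : IsOmega w) (hf : IsInj f d w) :
    Ctb M (fun x : α => Mem (code x) d) := by
  have hI : Int M (fun q : α × INat M => Mem (op (code q.1) (code q.2)) f) := ⟨f, fun _ => Iff.rfl⟩
  have key : ∀ x : α, Mem (code x) d →
      ∃! n : INat M, Mem (op (code x) (code n)) f := by
    intro x hx
    obtain ⟨y, hy, hu⟩ := hf.1.2 (code x) hx
    obtain ⟨q, h1, h2⟩ := hy
    obtain ⟨x', y', -, h4, h5⟩ := hf.1.1 q h2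
    rw [ordPair_iff] at h1 h5
    have h1' := h1
    rw [h1] at h5
    obtain ⟨-, rfl⟩ := op_inj h5
    obtain ⟨n, rfl⟩ := (mem_omega hw).1 h4
    refine ⟨n, ?_, fun m hm => ITy.inj (hu _ (app_iff.2 hm))⟩
    show Mem (op (code x) (code n)) f
    rw [← h1']
    exact h2
  refine ⟨fun x => the (fun n : INat M => Mem (op (code x) (code n)) f) 0,
    IntF.the hI (IntF.const _), fun a b ha hb hab => ?_⟩
  have h1 := the_spec (d := (0 : INat M)) (key a ha)
  have h2 := the_spec (d := (0 : INat M)) (key b hb)
  have hab' : the (fun n : INat M => Mem (op (code a) (code n)) f) 0 =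
    the (fun n : INat M => Mem (op (code b) (code n)) f) 0 := hab
  rw [← hab'] at h2
  exact ITy.inj (hf.2 _ _ _ (app_iff.2 h1) (app_iff.2 h2))

theorem no_collapse {w w₁ r P : M} (hw : IsOmega w) (hw₁ : IsSuccCard w₁ w)
    (hP : IsPreForcing r P) (hc : IsCCC3 w r P) : ¬ CollapsesToCountable w w₁ r P := by
  rintro ⟨p, F, hF⟩
  have hm : ∀ z : M, Mem z w ↔ ∃ n : INat M, code n = z := fun z => mem_omega hw
  -- the well-order
  have hΩ : IWO M (El w₁) (fun x y => Mem x.1 y.1) :=
    iwo_El fun x hx => isOrdinal_of_mem hw₁.ord hx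
  have hseg : ∀ a : El w₁, Ctb M (fun x : El w₁ => Mem x.1 a.1) := by
    intro a
    obtain ⟨f, hf⟩ := hw₁.least a.1 a.2
    exact ctb_of_inj hw hf
  have hunc : ¬ Ctb M (fun _ : El w₁ => True) := by
    rintro ⟨e, he, hi⟩
    exact hw₁.not_inj ⟨_, isInj_relc he (fun a b hab => hi a b trivial trivial hab)
      fun a => (hm _).2 ⟨e a, rfl⟩⟩
  -- the forcing
  have hle : Int M (fun q : El P × El P => App r q.1.1 q.2.1) :=
    ⟨r, fun q => (app_iff (f := r) (x := q.1.1) (y := q.2.1)).symm⟩
  have hcomp : ∀ p q : El P, Compat r P p.1 q.1 ↔ ∃ s : El P, App r s.1 p.1 ∧ App r s.1 q.1 := by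
    intro p q
    constructor
    · rintro ⟨s, h1, h2, h3⟩
      exact ⟨⟨s, h1⟩, h2, h3⟩
    · rintro ⟨s, h2, h3⟩
      exact ⟨s.1, s.2, h2, h3⟩
  have hC3 : C3 M (fun p q : El P => App r p.1 q.1) := by
    intro D hD hpd
    have hDm : ∀ z, Mem z (code (M := M) (sep M D)) ↔ ∃ a : El P, D a ∧ code a = z := by
      intro z
      refine (mem_code_pow (s := sep M D)).trans ⟨?_, ?_⟩
      · rintro ⟨a, h1, h2⟩
        exact ⟨a, (mem_sep hD).1 h1, h2⟩
      · rintro ⟨a, h1, h2⟩
        exact ⟨a, (mem_sep hD).2 h1, h2⟩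
    obtain ⟨D₀, h1, ⟨f, hf⟩, h2, h3⟩ := hc (code (sep M D)) (by
      constructor
      · intro d hd
        obtain ⟨a, -, rfl⟩ := (hDm d).1 hd
        exact a.2
      · intro q hq
        obtain ⟨d, hd, s, h4, h5⟩ := hpd ⟨q, hq⟩
        exact ⟨d.1, (hDm _).2 ⟨d, hd, rfl⟩, (hcomp ⟨q, hq⟩ d).2 ⟨s, h4, h5⟩⟩)
    refine ⟨fun x => Mem (code x) D₀, ⟨D₀, fun _ => Iff.rfl⟩, ?_, ctb_of_inj hw hf, ?_⟩
    · intro d hd
      obtain ⟨a, h4, h5⟩ := (hDm _).1 (h1 _ hd)
      exact ITy.inj h5 ▸ h4
    · intro q
      obtain ⟨d, hd, h4⟩ := h3 q.1 q.2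
      have hdP := h2 d hd
      obtain ⟨s, h5, h6⟩ := (hcomp q ⟨d, hdP⟩).1 h4
      exact ⟨⟨d, hdP⟩, hd, s, h5, h6⟩
  -- the name
  have hFI : Int M (fun q : El P × (INat M × El w₁) =>
      Mem (op (code q.1) (op (code q.2.1) (code q.2.2))) F) := ⟨F, fun _ => Iff.rfl⟩
  have hFI' : Int M (fun q : (El P × INat M) × El w₁ =>
      Mem (op (code q.1.1) (op (code q.1.2) (code q.2))) F) :=
    Int.comp (p := fun q : El P × (INat M × El w₁) =>
      Mem (op (code q.1) (op (code q.2.1) (code q.2.2))) F) hFI
      (f := fun q : (El P × INat M) × El w₁ => (q.1.1, (q.1.2, q.2))) (by (repeat' (first | with_reducible exact IntF.id | with_reducible exact IntF.fst' | with_reducible exact IntF.snd' | with_reducible exact IntF.const _ | with_reducible exact Int.const _ | assumption | with_reducible apply Int.and | with_reducible apply Int.or | with_reducible apply Int.not | with_reducible apply Int.imp | with_reducible apply Int.iff | with_reducible apply Int.ne | with_reducible apply Int.eq | with_reducible apply Int.mem | with_reducible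 apply Int.subset | with_reducible apply Int.ltN | with_reducible apply Int.leN | with_reducible_and_instances apply Int.le | with_reducible_and_instances apply Int.lt | with_reducible apply Int.all | with_reducible apply Int.ex | with_reducible apply IntF.fst | with_reducible apply IntF.snd | with_reducible apply IntF.app | with_reducible apply IntF.inl | with_reducible apply IntF.inr | with_reducible_and_instances apply IntF.mul | with_reducible_and_instances apply IntF.inv | with_reducible_and_instances apply IntF.add | with_reducible_and_instances apply IntF.sub | with_reducible_and_instances apply IntF.neg | with_reducible_and_instances apply IntF.smul | with_reducible apply Int.fin | with_reducible apply IntF.sep | with_reducible apply IntF.lam | with_reducible apply IntF.insert | with_reducible apply IntF.singleton | with_reducible apply IntF.union | with_reducible apply IntF.iimage | with_reducible apply IntF.ite | with_reducible apply IntF.the | with_reducible apply IntF.irec | with_reducible apply IntF.succ | with_reducible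 apply IntF.val | with_reducible apply IntF.mk | (with_reducible refine Int.comp ?_ ?_; assumption) | (with_reducible refine Int.comp₂ ?_ ?_ ?_; assumption) | (with_reducible refine Int.comp₃ ?_ ?_ ?_ ?_; assumption) | (with_reducible refine Int.comp₄ ?_ ?_ ?_ ?_ ?_; assumption) | (with_reducible refine IntF.comp ?_ ?_; assumption) | (with_reducible refine IntF.comp₂ ?_ ?_ ?_; assumption) | (with_reducible refine IntF.comp₃ ?_ ?_ ?_ ?_; assumption) | with_reducible apply IntF.pair)))
  obtain ⟨N, hN, hNI⟩ : ∃ N : El P → INat M → El w₁ → Prop,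
      (∀ q n a, N q n a ↔ NameAt F q.1 n.val a.1) ∧
      Int M (fun q : (El P × INat M) × El w₁ => N q.1.1 q.1.2 q.2) :=
    ⟨fun q n a => Mem (op (code q) (op (code n) (code a))) F, fun q n a => nameAt_iff'.symm, hFI'⟩
  obtain ⟨le, hled, hleI⟩ : ∃ le : El P → El P → Prop, (∀ p q, le p q ↔ App r p.1 q.1) ∧
      Int M (fun q : El P × El P => le q.1 q.2) := ⟨_, fun _ _ => Iff.rfl, hle⟩
  have hC3' : C3 M le := by
    have : le = fun p q : El P => App r p.1 q.1 := by
      funext p q
      exact propext (hled p q)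
    rw [this]
    exact hC3
  have htr : ∀ p q s, le p q → le q s → le p s := fun p q s h1 h2 =>
    (hled _ _).2 (hP.trans _ _ _ ((hled _ _).1 h1) ((hled _ _).1 h2))
  obtain ⟨p0, rfl⟩ : ∃ p0 : El P, p0.1 = p := ⟨⟨p, hF.mem⟩, rfl⟩
  have hp0I : Int M (fun q : (El P × INat M) × El w₁ => le q.1.1 p0) :=
    Int.comp₂ (p := fun a b => le a b) hleI (IntF.fst IntF.fst') (IntF.const _)
  refine main (P := El P) (Ω := El w₁) (le := le) (p0 := p0)
    (R := fun q n a => le q p0 ∧ ∃ q', le q q' ∧ N q' n a) hΩ hseg hunc hleI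
    (fun p => (hled _ _).2 (hP.refl p.1 p.2)) htr hC3' ⟨?_, ?_, ?_, ?_, ?_, ?_⟩
  · (repeat' (first | with_reducible exact IntF.id | with_reducible exact IntF.fst' | with_reducible exact IntF.snd' | with_reducible exact IntF.const _ | with_reducible exact Int.const _ | assumption | with_reducible apply Int.and | with_reducible apply Int.or | with_reducible apply Int.not | with_reducible apply Int.imp | with_reducible apply Int.iff | with_reducible apply Int.ne | with_reducible apply Int.eq | with_reducible apply Int.mem | with_reducible apply Int.subset | with_reducible apply Int.ltN | with_reducible apply Int.leN | with_reducible_and_instances apply Int.le | with_reducible_and_instances apply Int.lt | with_reducible apply Int.all | with_reducible apply Int.ex | with_reducible apply IntF.fst | with_reducible apply IntF.snd | with_reducible apply IntF.app | with_reducible apply IntF.inl | with_reducible apply IntF.inr | with_reducible_and_instances apply IntF.mul | with_reducible_and_instances apply IntF.inv | with_reducible_and_instances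 apply IntF.add | with_reducible_and_instances apply IntF.sub | with_reducible_and_instances apply IntF.neg | with_reducible_and_instances apply IntF.smul | with_reducible apply Int.fin | with_reducible apply IntF.sep | with_reducible apply IntF.lam | with_reducible apply IntF.insert | with_reducible apply IntF.singleton | with_reducible apply IntF.union | with_reducible apply IntF.iimage | with_reducible apply IntF.ite | with_reducible apply IntF.the | with_reducible apply IntF.irec | with_reducible apply IntF.succ | with_reducible apply IntF.val | with_reducible apply IntF.mk | (with_reducible refine Int.comp ?_ ?_; assumption) | (with_reducible refine Int.comp₂ ?_ ?_ ?_; assumption) | (with_reducible refine Int.comp₃ ?_ ?_ ?_ ?_; assumption) | (with_reducible refine Int.comp₄ ?_ ?_ ?_ ?_ ?_; assumption) | (with_reducible refine IntF.comp ?_ ?_; assumption) | (with_reducible refine IntF.comp₂ ?_ ?_ ?_; assumption) | (with_reducible refine IntF.comp₃ ?_ ?_ ?_ ?_; assumption) | with_reducible apply IntF.pair))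
  · exact fun q n a h1 => h1.1
  · rintro q s n a ⟨h1, q', h2, h3⟩ h4
    exact ⟨htr _ _ _ h4 h1, q', htr _ _ _ h4 h2, h3⟩
  · rintro q n a a' ⟨h1, q', h2, h3⟩ ⟨-, q'', h2', h3'⟩
    exact Subtype.ext (hF.func q.1 q'.1 q''.1 n.val a.1 a'.1 ((hled _ _).1 h1) ((hled _ _).1 h2)
      ((hled _ _).1 h2') ((hm _).2 ⟨n, rfl⟩) a.2 a'.2 ((hN _ _ _).1 h3) ((hN _ _ _).1 h3'))
  · intro q n hq
    obtain ⟨t, q', y, h1, h2, h3, h4⟩ := hF.total n.val q.1 ((hm _).2 ⟨n, rfl⟩) ((hled _ _).1 hq)
    refine ⟨⟨t, (hP.rel _ _ h1).1⟩, ⟨y, h3⟩, (hled _ _).2 h1,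
      htr _ _ _ ((hled _ _).2 h1) hq, ⟨q', (hP.rel _ _ h2).2⟩, (hled _ _).2 h2, (hN _ _ _).2 h4⟩
  · intro q a hq
    obtain ⟨t, q', x, h1, h2, h3, h4⟩ := hF.onto a.1 q.1 a.2 ((hled _ _).1 hq)
    obtain ⟨n, rfl⟩ := (hm x).1 h3
    refine ⟨⟨t, (hP.rel _ _ h1).1⟩, n, (hled _ _).2 h1,
      htr _ _ _ ((hled _ _).2 h1) hq, ⟨q', (hP.rel _ _ h2).2⟩, (hled _ _).2 h2, (hN _ _ _).2 h4⟩

end

end Pool.Agent.Helper672.ZFA.V246.T2H96
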