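import Pool.Agent.V11246.Cmp
import Pool.Agent.V11246.Ctb

/-!
# No collapse of `ω₁` by forcings with the third version of the countable chain condition: the
argument inside a model
-/

set_option maxHeartbeats 1000000
set_option linter.all false
set_option synthInstance.maxSize 2000

namespace Pool.Agent.Helper672.ZFA.V246.T2H96

open FirstOrder FirstOrder.Language
open H635 (IWO)
open Pool.Agent.Helper672.ZFA.V246
open Pool.Agent.H310

universe u

section

variable {M : Type u} [L.Structure M] [hM : IsModel M]
variable {P Ω : Type u} [ITy M P] [ITy M Ω]
variable {lt : Ω → Ω → Prop} (h : IWO M Ω lt)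
  (hseg : ∀ a, Ctb M (fun x => lt x a)) (hunc : ¬ Ctb M (fun _ : Ω => True))

theorem Ctb.comap {α β : Type u} [ITy M α] [ITy M β] {g : β → α} (hg : IntF M g)
    (hi : Function.Injective g) {p : α → Prop} (hp : Ctb M p) {q : β → Prop}
    (hq : ∀ x, q x → p (g x)) : Ctb M q := by
  obtain ⟨e, he, h1⟩ := hp
  exact ⟨fun x => e (g x), IntF.comp he hg, fun a b ha hb hab => hi (h1 _ _ (hq a ha) (hq b hb) hab)⟩

include h hseg hunc in
/-- the collapse of all subsets of `Ω` -/
theorem exists_collapse (y₀ : Ω) : ∃ ρ : IPow M Ω → Ω → Ω,
    IntF M (fun q : IPow M Ω × Ω => ρ q.1 q.2) ∧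
    (∀ s a b, a ∈ s → b ∈ s → lt a b → lt (ρ s a) (ρ s b)) ∧
    (∀ s a x, a ∈ s → ¬ lt (ρ s a) x → ∃ d, d ∈ s ∧ ρ s d = x) := by
  obtain ⟨ρ, hρ, h1⟩ := exists_comp h h (ι := IPow M Ω) (T := fun s a => a ∈ s)
    (by (repeat' (first | with_reducible exact IntF.id | with_reducible exact IntF.fst' | with_reducible exact IntF.snd' | with_reducible exact IntF.const _ | with_reducible exact Int.const _ | assumption | with_reducible apply Int.and | with_reducible apply Int.or | with_reducible apply Int.not | with_reducible apply Int.imp | with_reducible apply Int.iff | with_reducible apply Int.ne | with_reducible apply Int.eq | with_reducible apply Int.mem | with_reducible apply Int.subset | with_reducible apply Int.ltN | with_reducible apply Int.leN | with_reducible_and_instances apply Int.le | with_reducible_and_instances apply Int.lt | with_reducible apply Int.all | with_reducible apply Int.ex | with_reducible apply IntF.fst | with_reducible apply IntF.snd | with_reducible apply IntF.app | with_reducible apply IntF.inl | with_reducible apply IntF.inr | with_reducible_and_instances apply IntF.mul | with_reducible_and_instances apply IntF.inv | with_reducible_and_instances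 apply IntF.add | with_reducible_and_instances apply IntF.sub | with_reducible_and_instances apply IntF.neg | with_reducible_and_instances apply IntF.smul | with_reducible apply Int.fin | with_reducible apply IntF.sep | with_reducible apply IntF.lam | with_reducible apply IntF.insert | with_reducible apply IntF.singleton | with_reducible apply IntF.union | with_reducible apply IntF.iimage | with_reducible apply IntF.ite | with_reducible apply IntF.the | with_reducible apply IntF.irec | with_reducible apply IntF.succ | with_reducible apply IntF.val | with_reducible apply IntF.mk | (with_reducible refine Int.comp ?_ ?_; assumption) | (with_reducible refine Int.comp₂ ?_ ?_ ?_; assumption) | (with_reducible refine Int.comp₃ ?_ ?_ ?_ ?_; assumption) | (with_reducible refine Int.comp₄ ?_ ?_ ?_ ?_ ?_; assumption) | (with_reducible refine IntF.comp ?_ ?_; assumption) | (with_reducible refine IntF.comp₂ ?_ ?_ ?_; assumption) | (with_reducible refine IntF.comp₃ ?_ ?_ ?_ ?_; assumption) | with_reducible apply IntF.pair))) y₀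
  refine ⟨ρ, hρ, fun s => ?_, fun s => ?_⟩
  · rcases h1 s with ⟨h2, -⟩ | ⟨c, -, g, hg, hgi, h3⟩
    · exact fun a b ha hb hab => h2 a b ha hb hab
    · exact absurd (Ctb.comap hg hgi (hseg c) fun x _ => (h3 x).2) hunc
  · rcases h1 s with ⟨-, h2⟩ | ⟨c, -, g, hg, hgi, h3⟩
    · intro a x ha hx
      obtain ⟨d, h3, h4, -⟩ := h2 a x ha hx
      exact ⟨d, h3, h4⟩
    · exact absurd (Ctb.comap hg hgi (hseg c) fun x _ => (h3 x).2) hunc

include h hunc in
/-- an initial segment of type `ω` -/
theorem exists_omega (y₀ : Ω) : ∃ (e : INat M → Ω) (δ : Ω), IntF M e ∧
    (∀ m n, e m = e n → m = n) ∧ ∀ n, lt (e n) δ := by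
  obtain ⟨ρ, hρ, h1⟩ := exists_comp (N := M) iwoNn h (ι := INat M) (T := fun _ _ => True)
    (Int.const True) y₀
  have he : IntF M (fun n => ρ 0 n) := IntF.slice hρ 0
  rcases h1 0 with ⟨h2, h3⟩ | ⟨c, -, g, hg, hgi, h3⟩
  · have hinj : ∀ m n, ρ 0 m = ρ 0 n → m = n := by
      intro m n hmn
      rcases lt_trichotomy m n with h4 | h4 | h4
      · exact absurd (hmn ▸ h2 m n trivial trivial h4) (iwo_irrefl h _)
      · exact h4
      · exact absurd (hmn ▸ h2 n m trivial trivial h4) (iwo_irrefl h _)
    obtain ⟨δ, hδ⟩ : ∃ δ, ∀ n, ρ 0 n ≠ δ := by
      by_contra hcon
      push Not at hcon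
      obtain ⟨φ, hφ, h4⟩ := exists_lf (N := M) iwoNn (γ := Ω) (r := fun x n => ρ 0 n = x)
        (by
          have he' := he
          (repeat' (first | with_reducible exact IntF.id | with_reducible exact IntF.fst' | with_reducible exact IntF.snd' | with_reducible exact IntF.const _ | with_reducible exact Int.const _ | assumption | with_reducible apply Int.and | with_reducible apply Int.or | with_reducible apply Int.not | with_reducible apply Int.imp | with_reducible apply Int.iff | with_reducible apply Int.ne | with_reducible apply Int.eq | with_reducible apply Int.mem | with_reducible apply Int.subset | with_reducible apply Int.ltN | with_reducible apply Int.leN | with_reducible_and_instances apply Int.le | with_reducible_and_instances apply Int.lt | with_reducible apply Int.all | with_reducible apply Int.ex | with_reducible apply IntF.fst | with_reducible apply IntF.snd | with_reducible apply IntF.app | with_reducible apply IntF.inl | with_reducible apply IntF.inr | with_reducible_and_instances apply IntF.mul | with_reducible_and_instances apply IntF.inv | with_reducible_and_instances apply IntF.add | with_reducible_and_instances apply IntF.sub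 | with_reducible_and_instances apply IntF.neg | with_reducible_and_instances apply IntF.smul | with_reducible apply Int.fin | with_reducible apply IntF.sep | with_reducible apply IntF.lam | with_reducible apply IntF.insert | with_reducible apply IntF.singleton | with_reducible apply IntF.union | with_reducible apply IntF.iimage | with_reducible apply IntF.ite | with_reducible apply IntF.the | with_reducible apply IntF.irec | with_reducible apply IntF.succ | with_reducible apply IntF.val | with_reducible apply IntF.mk | (with_reducible refine Int.comp ?_ ?_; assumption) | (with_reducible refine Int.comp₂ ?_ ?_ ?_; assumption) | (with_reducible refine Int.comp₃ ?_ ?_ ?_ ?_; assumption) | (with_reducible refine Int.comp₄ ?_ ?_ ?_ ?_ ?_; assumption) | (with_reducible refine IntF.comp ?_ ?_; assumption) | (with_reducible refine IntF.comp₂ ?_ ?_ ?_; assumption) | (with_reducible refine IntF.comp₃ ?_ ?_ ?_ ?_; assumption) | with_reducible apply IntF.pair))) 0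
      refine hunc ⟨φ, hφ, fun a b _ _ hab => ?_⟩
      rw [← (h4 a (hcon a)).1, ← (h4 b (hcon b)).1, hab]
    refine ⟨_, δ, he, hinj, fun n => ?_⟩
    by_contra hcon
    obtain ⟨d, -, h4, -⟩ := h3 n δ trivial hcon
    exact hδ d h4
  · exact absurd (Ctb.comap hg hgi Ctb.nat fun x _ => trivial) hunc

include h hunc in
/-- `Ω` is not an internal countable union of sets with collapses in a countable set -/
theorem no_cover {ρ : IPow M Ω → Ω → Ω} (hρ : IntF M (fun q : IPow M Ω × Ω => ρ q.1 q.2))
    (hρ1 : ∀ s a b, a ∈ s → b ∈ s → lt a b → lt (ρ s a) (ρ s b))
    {s : INat M → IPow M Ω} (hs : IntF M s) (hcov : ∀ a, ∃ n, a ∈ s n) {J : Ω → Prop}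
    (hJ : Ctb M J) (hin : ∀ n a, a ∈ s n → J (ρ (s n) a)) : False := by
  obtain ⟨e, he, he1⟩ := hJ
  obtain ⟨ν, hν, h1⟩ := exists_lf (N := M) iwoNn (γ := Ω) (r := fun a n => a ∈ s n)
    (by (repeat' (first | with_reducible exact IntF.id | with_reducible exact IntF.fst' | with_reducible exact IntF.snd' | with_reducible exact IntF.const _ | with_reducible exact Int.const _ | assumption | with_reducible apply Int.and | with_reducible apply Int.or | with_reducible apply Int.not | with_reducible apply Int.imp | with_reducible apply Int.iff | with_reducible apply Int.ne | with_reducible apply Int.eq | with_reducible apply Int.mem | with_reducible apply Int.subset | with_reducible apply Int.ltN | with_reducible apply Int.leN | with_reducible_and_instances apply Int.le | with_reducible_and_instances apply Int.lt | with_reducible apply Int.all | with_reducible apply Int.ex | with_reducible apply IntF.fst | with_reducible apply IntF.snd | with_reducible apply IntF.app | with_reducible apply IntF.inl | with_reducible apply IntF.inr | with_reducible_and_instances apply IntF.mul | with_reducible_and_instances apply IntF.inv | with_reducible_and_instances apply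 IntF.add | with_reducible_and_instances apply IntF.sub | with_reducible_and_instances apply IntF.neg | with_reducible_and_instances apply IntF.smul | with_reducible apply Int.fin | with_reducible apply IntF.sep | with_reducible apply IntF.lam | with_reducible apply IntF.insert | with_reducible apply IntF.singleton | with_reducible apply IntF.union | with_reducible apply IntF.iimage | with_reducible apply IntF.ite | with_reducible apply IntF.the | with_reducible apply IntF.irec | with_reducible apply IntF.succ | with_reducible apply IntF.val | with_reducible apply IntF.mk | (with_reducible refine Int.comp ?_ ?_; assumption) | (with_reducible refine Int.comp₂ ?_ ?_ ?_; assumption) | (with_reducible refine Int.comp₃ ?_ ?_ ?_ ?_; assumption) | (with_reducible refine Int.comp₄ ?_ ?_ ?_ ?_ ?_; assumption) | (with_reducible refine IntF.comp ?_ ?_; assumption) | (with_reducible refine IntF.comp₂ ?_ ?_ ?_; assumption) | (with_reducible refine IntF.comp₃ ?_ ?_ ?_ ?_; assumption) | with_reducible apply IntF.pair))) 0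
  have hp : IntF M (fun q : INat M × INat M => pr q.1 q.2) := int_pr
  refine hunc ⟨fun a => pr (ν a) (e (ρ (s (ν a)) a)), ?_, fun a b _ _ hab => ?_⟩
  · (repeat' (first | with_reducible exact IntF.id | with_reducible exact IntF.fst' | with_reducible exact IntF.snd' | with_reducible exact IntF.const _ | with_reducible exact Int.const _ | assumption | with_reducible apply Int.and | with_reducible apply Int.or | with_reducible apply Int.not | with_reducible apply Int.imp | with_reducible apply Int.iff | with_reducible apply Int.ne | with_reducible apply Int.eq | with_reducible apply Int.mem | with_reducible apply Int.subset | with_reducible apply Int.ltN | with_reducible apply Int.leN | with_reducible_and_instances apply Int.le | with_reducible_and_instances apply Int.lt | with_reducible apply Int.all | with_reducible apply Int.ex | with_reducible apply IntF.fst | with_reducible apply IntF.snd | with_reducible apply IntF.app | with_reducible apply IntF.inl | with_reducible apply IntF.inr | with_reducible_and_instances apply IntF.mul | with_reducible_and_instances apply IntF.inv | with_reducible_and_instances apply IntF.add | with_reducible_and_instances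 apply IntF.sub | with_reducible_and_instances apply IntF.neg | with_reducible_and_instances apply IntF.smul | with_reducible apply Int.fin | with_reducible apply IntF.sep | with_reducible apply IntF.lam | with_reducible apply IntF.insert | with_reducible apply IntF.singleton | with_reducible apply IntF.union | with_reducible apply IntF.iimage | with_reducible apply IntF.ite | with_reducible apply IntF.the | with_reducible apply IntF.irec | with_reducible apply IntF.succ | with_reducible apply IntF.val | with_reducible apply IntF.mk | (with_reducible refine Int.comp ?_ ?_; assumption) | (with_reducible refine Int.comp₂ ?_ ?_ ?_; assumption) | (with_reducible refine Int.comp₃ ?_ ?_ ?_ ?_; assumption) | (with_reducible refine Int.comp₄ ?_ ?_ ?_ ?_ ?_; assumption) | (with_reducible refine IntF.comp ?_ ?_; assumption) | (with_reducible refine IntF.comp₂ ?_ ?_ ?_; assumption) | (with_reducible refine IntF.comp₃ ?_ ?_ ?_ ?_; assumption) | with_reducible apply IntF.pair))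
  · obtain ⟨h2, h3⟩ := pr_inj hab
    have ha := (h1 a (hcov a)).1
    have hb := (h1 b (hcov b)).1
    rw [← h2] at h3 hb
    have h4 := he1 _ _ (hin _ a ha) (hin _ b hb) h3
    rcases h.tri a b with h5 | h5 | h5
    · exact absurd (h4 ▸ hρ1 _ a b ha hb h5) (iwo_irrefl h _)
    · exact h5
    · exact absurd (h4 ▸ hρ1 _ b a hb ha h5) (iwo_irrefl h _)

include h in
/-- collapses are monotone -/
theorem mono {ρ : IPow M Ω → Ω → Ω} (hρ : IntF M (fun q : IPow M Ω × Ω => ρ q.1 q.2))
    (hρ1 : ∀ s a b, a ∈ s → b ∈ s → lt a b → lt (ρ s a) (ρ s b))
    (hρ2 : ∀ s a x, a ∈ s → ¬ lt (ρ s a) x → ∃ d, d ∈ s ∧ ρ s d = x)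
    {s t : IPow M Ω} (hst : ∀ a, a ∈ s → a ∈ t) (a : Ω) : a ∈ s → ¬ lt (ρ t a) (ρ s a) := by
  have hlt := h.int
  refine iwo_ind h (p := fun a => a ∈ s → ¬ lt (ρ t a) (ρ s a)) (by (repeat' (first | with_reducible exact IntF.id | with_reducible exact IntF.fst' | with_reducible exact IntF.snd' | with_reducible exact IntF.const _ | with_reducible exact Int.const _ | assumption | with_reducible apply Int.and | with_reducible apply Int.or | with_reducible apply Int.not | with_reducible apply Int.imp | with_reducible apply Int.iff | with_reducible apply Int.ne | with_reducible apply Int.eq | with_reducible apply Int.mem | with_reducible apply Int.subset | with_reducible apply Int.ltN | with_reducible apply Int.leN | with_reducible_and_instances apply Int.le | with_reducible_and_instances apply Int.lt | with_reducible apply Int.all | with_reducible apply Int.ex | with_reducible apply IntF.fst | with_reducible apply IntF.snd | with_reducible apply IntF.app | with_reducible apply IntF.inl | with_reducible apply IntF.inr | with_reducible_and_instances apply IntF.mul | with_reducible_and_instances apply IntF.inv | with_reducible_and_instances apply IntF.add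 | with_reducible_and_instances apply IntF.sub | with_reducible_and_instances apply IntF.neg | with_reducible_and_instances apply IntF.smul | with_reducible apply Int.fin | with_reducible apply IntF.sep | with_reducible apply IntF.lam | with_reducible apply IntF.insert | with_reducible apply IntF.singleton | with_reducible apply IntF.union | with_reducible apply IntF.iimage | with_reducible apply IntF.ite | with_reducible apply IntF.the | with_reducible apply IntF.irec | with_reducible apply IntF.succ | with_reducible apply IntF.val | with_reducible apply IntF.mk | (with_reducible refine Int.comp ?_ ?_; assumption) | (with_reducible refine Int.comp₂ ?_ ?_ ?_; assumption) | (with_reducible refine Int.comp₃ ?_ ?_ ?_ ?_; assumption) | (with_reducible refine Int.comp₄ ?_ ?_ ?_ ?_ ?_; assumption) | (with_reducible refine IntF.comp ?_ ?_; assumption) | (with_reducible refine IntF.comp₂ ?_ ?_ ?_; assumption) | (with_reducible refine IntF.comp₃ ?_ ?_ ?_ ?_; assumption) | with_reducible apply IntF.pair))) ?_ a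
  intro a ih ha hcon
  obtain ⟨d, hd, h1⟩ := hρ2 s a (ρ t a) ha fun h2 => iwo_asymm h hcon h2
  have hda : lt d a := by
    rcases h.tri d a with h2 | h2 | h2
    · exact h2
    · subst h2
      rw [h1] at hcon
      exact absurd hcon (iwo_irrefl h _)
    · have := hρ1 s a d ha hd h2
      rw [h1] at this
      exact (iwo_asymm h hcon this).elim
  have h3 := ih d hda hd
  rw [h1] at h3
  exact h3 (hρ1 t d a (hst d hd) (hst a ha) hda)

end

end Pool.Agent.Helper672.ZFA.V246.T2H96
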