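import Pool.Agent.T2H96.C3.Core

/-!
# No collapse of `ω₁` by forcings with the third version of the countable chain condition: the
forcing argument inside a model
-/

set_option maxHeartbeats 1000000
set_option linter.all false
set_option synthInstance.maxSize 2000

namespace Pool.Agent.Helper672.ZFA.V246.T2H96

open FirstOrder FirstOrder.Language
open H635 (IWO)
open Pool.Agent.Helper672.ZFA.V246
open Pool.Agent.H310

universe u

section

variable {M : Type u} [L.Structure M] [hM : IsModel M]
variable {P Ω : Type u} [ITy M P] [ITy M Ω]

/-- predense -/
def Pd (le : P → P → Prop) (D : P → Prop) : Prop := ∀ p, ∃ d, D d ∧ ∃ r, le r p ∧ le r d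

variable (M) in
/-- the internal version of `ccc₃` -/
def C3 (le : P → P → Prop) : Prop :=
  ∀ D : P → Prop, Int M D → Pd le D → ∃ D0 : P → Prop, Int M D0 ∧ (∀ d, D0 d → D d) ∧ Ctb M D0 ∧
    Pd le D0

variable (M) in
/-- a name below `p0` for a surjection from `ω` to `Ω`, given by the deciding conditions -/
structure Nm (le : P → P → Prop) (p0 : P) (R : P → INat M → Ω → Prop) : Prop where
  int : Int M (fun q : (P × INat M) × Ω => R q.1.1 q.1.2 q.2)
  le' : ∀ q n a, R q n a → le q p0
  down : ∀ q r n a, R q n a → le r q → R r n a
  func : ∀ q n a a', R q n a → R q n a' → a = a'
  tot : ∀ q n, le q p0 → ∃ r a, le r q ∧ R r n a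
  onto : ∀ q a, le q p0 → ∃ r n, le r q ∧ R r n a

variable {le : P → P → Prop} (hle : Int M (fun q : P × P => le q.1 q.2)) (hrefl : ∀ p, le p p)
  (htr : ∀ p q r, le p q → le q r → le p r) (hc : C3 M le)
  {p0 : P} {R : P → INat M → Ω → Prop} (hR : Nm M le p0 R)

include hle hrefl htr hR in
theorem decide_below (n : INat M) : ∀ q, le q p0 → ∃ r, le r q ∧ ∀ i, i < n → ∃ a, R r i a := by
  have hRi := hR.int
  refine INat.ind (p := fun n => ∀ q, le q p0 → ∃ r, le r q ∧ ∀ i, i < n → ∃ a, R r i a)
    (by (repeat' (first | with_reducible exact IntF.id | with_reducible exact IntF.fst' | with_reducible exact IntF.snd' | with_reducible exact IntF.const _ | with_reducible exact Int.const _ | assumption | with_reducible apply Int.and | with_reducible apply Int.or | with_reducible apply Int.not | with_reducible apply Int.imp | with_reducible apply Int.iff | with_reducible apply Int.ne | with_reducible apply Int.eq | with_reducible apply Int.mem | with_reducible apply Int.subset | with_reducible apply Int.ltN | with_reducible apply Int.leN | with_reducible_and_instances apply Int.le | with_reducible_and_instances apply Int.lt | with_reducible apply Int.all | with_reducible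 apply Int.ex | with_reducible apply IntF.fst | with_reducible apply IntF.snd | with_reducible apply IntF.app | with_reducible apply IntF.inl | with_reducible apply IntF.inr | with_reducible_and_instances apply IntF.mul | with_reducible_and_instances apply IntF.inv | with_reducible_and_instances apply IntF.add | with_reducible_and_instances apply IntF.sub | with_reducible_and_instances apply IntF.neg | with_reducible_and_instances apply IntF.smul | with_reducible apply Int.fin | with_reducible apply IntF.sep | with_reducible apply IntF.lam | with_reducible apply IntF.insert | with_reducible apply IntF.singleton | with_reducible apply IntF.union | with_reducible apply IntF.iimage | with_reducible apply IntF.ite | with_reducible apply IntF.the | with_reducible apply IntF.irec | with_reducible apply IntF.succ | with_reducible apply IntF.val | with_reducible apply IntF.mk | (with_reducible refine Int.comp ?_ ?_; assumption) | (with_reducible refine Int.comp₂ ?_ ?_ ?_; assumption) | (with_reducible refine Int.comp₃ ?_ ?_ ?_ ?_; assumption) | (with_reducible refine Int.comp₄ ?_ ?_ ?_ ?_ ?_; assumption) | (with_reducible refine IntF.comp ?_ ?_; assumption) | (with_reducible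 refine IntF.comp₂ ?_ ?_ ?_; assumption) | (with_reducible refine IntF.comp₃ ?_ ?_ ?_ ?_; assumption) | with_reducible apply IntF.pair))) ?_ ?_ n
  · exact fun q hq => ⟨q, hrefl q, fun i hi => absurd hi (not_lt.2 (INat.zero_le i))⟩
  · intro n ih q hq
    obtain ⟨r, hr, h1⟩ := ih q hq
    obtain ⟨s, a, hs, h2⟩ := hR.tot r n (htr _ _ _ hr hq)
    refine ⟨s, htr _ _ _ hs hr, fun i hi => ?_⟩
    rcases INat.lt_succ_iff'.1 hi with h3 | h3
    · obtain ⟨a, ha⟩ := h1 i h3
      exact ⟨a, hR.down _ _ _ _ ha hs⟩
    · exact ⟨a, h3 ▸ h2⟩

include hle hrefl htr hc hR in
/-- the set of the values below `m` is countable, also if `m` depends on the value at `i0` -/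
theorem ctb_values (i0 : INat M) {m : Ω → INat M} (hm : IntF M m) :
    Ctb M (fun a : Ω => ∃ b i q, i < m b ∧ R q i0 b ∧ R q i a) := by
  have hRi := hR.int
  obtain ⟨D0, hD0, hsub, ⟨e1, he1, he1i⟩, hpd⟩ := hc
    (fun r => (¬ ∃ s, le s r ∧ le s p0) ∨ ∃ b, R r i0 b ∧ ∀ i, i < m b → ∃ a, R r i a)
    (by (repeat' (first | with_reducible exact IntF.id | with_reducible exact IntF.fst' | with_reducible exact IntF.snd' | with_reducible exact IntF.const _ | with_reducible exact Int.const _ | assumption | with_reducible apply Int.and | with_reducible apply Int.or | with_reducible apply Int.not | with_reducible apply Int.imp | with_reducible apply Int.iff | with_reducible apply Int.ne | with_reducible apply Int.eq | with_reducible apply Int.mem | with_reducible apply Int.subset | with_reducible apply Int.ltN | with_reducible apply Int.leN | with_reducible_and_instances apply Int.le | with_reducible_and_instances apply Int.lt | with_reducible apply Int.all | with_reducible apply Int.ex | with_reducible apply IntF.fst | with_reducible apply IntF.snd | with_reducible apply IntF.app | with_reducible apply IntF.inl | with_reducible apply IntF.inr | with_reducible_and_instances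 apply IntF.mul | with_reducible_and_instances apply IntF.inv | with_reducible_and_instances apply IntF.add | with_reducible_and_instances apply IntF.sub | with_reducible_and_instances apply IntF.neg | with_reducible_and_instances apply IntF.smul | with_reducible apply Int.fin | with_reducible apply IntF.sep | with_reducible apply IntF.lam | with_reducible apply IntF.insert | with_reducible apply IntF.singleton | with_reducible apply IntF.union | with_reducible apply IntF.iimage | with_reducible apply IntF.ite | with_reducible apply IntF.the | with_reducible apply IntF.irec | with_reducible apply IntF.succ | with_reducible apply IntF.val | with_reducible apply IntF.mk | (with_reducible refine Int.comp ?_ ?_; assumption) | (with_reducible refine Int.comp₂ ?_ ?_ ?_; assumption) | (with_reducible refine Int.comp₃ ?_ ?_ ?_ ?_; assumption) | (with_reducible refine Int.comp₄ ?_ ?_ ?_ ?_ ?_; assumption) | (with_reducible refine IntF.comp ?_ ?_; assumption) | (with_reducible refine IntF.comp₂ ?_ ?_ ?_; assumption) | (with_reducible refine IntF.comp₃ ?_ ?_ ?_ ?_; assumption) | with_reducible apply IntF.pair))) (by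
      intro q
      by_cases h1 : ∃ s, le s q ∧ le s p0
      · obtain ⟨s, hs, hs'⟩ := h1
        obtain ⟨r, b, hr, hb⟩ := hR.tot s i0 hs'
        obtain ⟨t, ht, h2⟩ := decide_below hle hrefl htr hR (m b) r (htr _ _ _ hr hs')
        exact ⟨t, Or.inr ⟨b, hR.down _ _ _ _ hb ht, h2⟩, t,
          htr _ _ _ ht (htr _ _ _ hr hs), hrefl t⟩
      · exact ⟨q, Or.inl h1, q, hrefl q, hrefl q⟩)
  have hp : IntF M (fun q : INat M × INat M => pr q.1 q.2) := int_pr
  obtain ⟨φ, hφ, h1⟩ := exists_lf (N := M) iwoNn (γ := Ω)
    (r := fun a k => ∃ r i, D0 r ∧ pr (e1 r) i = k ∧ R r i a) (by (repeat' (first | with_reducible exact IntF.id | with_reducible exact IntF.fst' | with_reducible exact IntF.snd' | with_reducible exact IntF.const _ | with_reducible exact Int.const _ | assumption | with_reducible apply Int.and | with_reducible apply Int.or | with_reducible apply Int.not | with_reducible apply Int.imp | with_reducible apply Int.iff | with_reducible apply Int.ne | with_reducible apply Int.eq | with_reducible apply Int.mem | with_reducible apply Int.subset | with_reducible apply Int.ltN | with_reducible apply Int.leN | with_reducible_and_instances apply Int.le | with_reducible_and_instances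 apply Int.lt | with_reducible apply Int.all | with_reducible apply Int.ex | with_reducible apply IntF.fst | with_reducible apply IntF.snd | with_reducible apply IntF.app | with_reducible apply IntF.inl | with_reducible apply IntF.inr | with_reducible_and_instances apply IntF.mul | with_reducible_and_instances apply IntF.inv | with_reducible_and_instances apply IntF.add | with_reducible_and_instances apply IntF.sub | with_reducible_and_instances apply IntF.neg | with_reducible_and_instances apply IntF.smul | with_reducible apply Int.fin | with_reducible apply IntF.sep | with_reducible apply IntF.lam | with_reducible apply IntF.insert | with_reducible apply IntF.singleton | with_reducible apply IntF.union | with_reducible apply IntF.iimage | with_reducible apply IntF.ite | with_reducible apply IntF.the | with_reducible apply IntF.irec | with_reducible apply IntF.succ | with_reducible apply IntF.val | with_reducible apply IntF.mk | (with_reducible refine Int.comp ?_ ?_; assumption) | (with_reducible refine Int.comp₂ ?_ ?_ ?_; assumption) | (with_reducible refine Int.comp₃ ?_ ?_ ?_ ?_; assumption) | (with_reducible refine Int.comp₄ ?_ ?_ ?_ ?_ ?_; assumption) |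 (with_reducible refine IntF.comp ?_ ?_; assumption) | (with_reducible refine IntF.comp₂ ?_ ?_ ?_; assumption) | (with_reducible refine IntF.comp₃ ?_ ?_ ?_ ?_; assumption) | with_reducible apply IntF.pair))) 0
  have key : ∀ a : Ω, (∃ b i q, i < m b ∧ R q i0 b ∧ R q i a) →
      ∃ k r i, D0 r ∧ pr (e1 r) i = k ∧ R r i a := by
    rintro a ⟨b, i, q, hi, hqb, hqa⟩
    obtain ⟨d, hd, r, hrq, hrd⟩ := hpd q
    rcases hsub d hd with h2 | ⟨b', h2, h3⟩
    · exact absurd ⟨r, hrd, htr _ _ _ hrq (hR.le' _ _ _ hqb)⟩ h2
    · have h4 : b' = b := hR.func r i0 b' b (hR.down _ _ _ _ h2 hrd) (hR.down _ _ _ _ hqb hrq)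
      subst h4
      obtain ⟨a', ha'⟩ := h3 i hi
      have h5 : a' = a := hR.func r i a' a (hR.down _ _ _ _ ha' hrd) (hR.down _ _ _ _ hqa hrq)
      subst h5
      exact ⟨_, d, i, hd, rfl, ha'⟩
  refine ⟨φ, hφ, fun a a' ha ha' haa => ?_⟩
  obtain ⟨r, i, hr, h2, h3⟩ := (h1 a (key a ha)).1
  obtain ⟨r', i', hr', h2', h3'⟩ := (h1 a' (key a' ha')).1
  rw [haa, ← h2'] at h2
  obtain ⟨h4, h5⟩ := pr_inj h2
  have h6 := he1i r r' hr hr' h4
  subst h6 h5
  exact hR.func _ _ _ _ h3 h3'

end

section

variable {M : Type u} [L.Structure M] [hM : IsModel M]
variable {P Ω : Type u} [ITy M P] [ITy M Ω]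
variable {le : P → P → Prop} {p0 : P} {R : P → INat M → Ω → Prop}

/-- values below `n` if the value at `i0` is `b` -/
noncomputable def Av (M : Type u) [L.Structure M] [hM : IsModel M] {P Ω : Type u} [ITy M P]
    [ITy M Ω] (R : P → INat M → Ω → Prop) (i0 : INat M) (b : Ω) (n : INat M) : IPow M Ω :=
  sep M fun a => ∃ i q, i < n ∧ R q i0 b ∧ R q i a

theorem mem_Av (hRi : Int M (fun q : (P × INat M) × Ω => R q.1.1 q.1.2 q.2)) {i0 : INat M} {b : Ω}
    {n : INat M} {a : Ω} : a ∈ Av M R i0 b n ↔ ∃ i q, i < n ∧ R q i0 b ∧ R q i a := by
  unfold Av
  exact mem_sep (by (repeat' (first | with_reducible exact IntF.id | with_reducible exact IntF.fst' | with_reducible exact IntF.snd' | with_reducible exact IntF.const _ | with_reducible exact Int.const _ | assumption | with_reducible apply Int.and | with_reducible apply Int.or | with_reducible apply Int.not | with_reducible apply Int.imp | with_reducible apply Int.iff | with_reducible apply Int.ne | with_reducible apply Int.eq | with_reducible apply Int.mem | with_reducible apply Int.subset | with_reducible apply Int.ltN | with_reducible apply Int.leN | with_reducible_and_instances apply Int.le | with_reducible_and_instances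 apply Int.lt | with_reducible apply Int.all | with_reducible apply Int.ex | with_reducible apply IntF.fst | with_reducible apply IntF.snd | with_reducible apply IntF.app | with_reducible apply IntF.inl | with_reducible apply IntF.inr | with_reducible_and_instances apply IntF.mul | with_reducible_and_instances apply IntF.inv | with_reducible_and_instances apply IntF.add | with_reducible_and_instances apply IntF.sub | with_reducible_and_instances apply IntF.neg | with_reducible_and_instances apply IntF.smul | with_reducible apply Int.fin | with_reducible apply IntF.sep | with_reducible apply IntF.lam | with_reducible apply IntF.insert | with_reducible apply IntF.singleton | with_reducible apply IntF.union | with_reducible apply IntF.iimage | with_reducible apply IntF.ite | with_reducible apply IntF.the | with_reducible apply IntF.irec | with_reducible apply IntF.succ | with_reducible apply IntF.val | with_reducible apply IntF.mk | (with_reducible refine Int.comp ?_ ?_; assumption) | (with_reducible refine Int.comp₂ ?_ ?_ ?_; assumption) | (with_reducible refine Int.comp₃ ?_ ?_ ?_ ?_; assumption) | (with_reducible refine Int.comp₄ ?_ ?_ ?_ ?_ ?_; assumption) |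 (with_reducible refine IntF.comp ?_ ?_; assumption) | (with_reducible refine IntF.comp₂ ?_ ?_ ?_; assumption) | (with_reducible refine IntF.comp₃ ?_ ?_ ?_ ?_; assumption) | with_reducible apply IntF.pair)))

theorem int_Av (hRi : Int M (fun q : (P × INat M) × Ω => R q.1.1 q.1.2 q.2)) (i0 : INat M) :
    IntF M (fun q : Ω × INat M => Av M R i0 q.1 q.2) := by
  unfold Av
  (repeat' (first | with_reducible exact IntF.id | with_reducible exact IntF.fst' | with_reducible exact IntF.snd' | with_reducible exact IntF.const _ | with_reducible exact Int.const _ | assumption | with_reducible apply Int.and | with_reducible apply Int.or | with_reducible apply Int.not | with_reducible apply Int.imp | with_reducible apply Int.iff | with_reducible apply Int.ne | with_reducible apply Int.eq | with_reducible apply Int.mem | with_reducible apply Int.subset | with_reducible apply Int.ltN | with_reducible apply Int.leN | with_reducible_and_instances apply Int.le | with_reducible_and_instances apply Int.lt | with_reducible apply Int.all | with_reducible apply Int.ex | with_reducible apply IntF.fst | with_reducible apply IntF.snd | with_reducible apply IntF.app | with_reducible apply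 IntF.inl | with_reducible apply IntF.inr | with_reducible_and_instances apply IntF.mul | with_reducible_and_instances apply IntF.inv | with_reducible_and_instances apply IntF.add | with_reducible_and_instances apply IntF.sub | with_reducible_and_instances apply IntF.neg | with_reducible_and_instances apply IntF.smul | with_reducible apply Int.fin | with_reducible apply IntF.sep | with_reducible apply IntF.lam | with_reducible apply IntF.insert | with_reducible apply IntF.singleton | with_reducible apply IntF.union | with_reducible apply IntF.iimage | with_reducible apply IntF.ite | with_reducible apply IntF.the | with_reducible apply IntF.irec | with_reducible apply IntF.succ | with_reducible apply IntF.val | with_reducible apply IntF.mk | (with_reducible refine Int.comp ?_ ?_; assumption) | (with_reducible refine Int.comp₂ ?_ ?_ ?_; assumption) | (with_reducible refine Int.comp₃ ?_ ?_ ?_ ?_; assumption) | (with_reducible refine Int.comp₄ ?_ ?_ ?_ ?_ ?_; assumption) | (with_reducible refine IntF.comp ?_ ?_; assumption) | (with_reducible refine IntF.comp₂ ?_ ?_ ?_; assumption) | (with_reducible refine IntF.comp₃ ?_ ?_ ?_ ?_; assumption) | with_reducible apply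 IntF.pair))

theorem main {lt : Ω → Ω → Prop} (h : IWO M Ω lt)
    (hseg : ∀ a, Ctb M (fun x => lt x a)) (hunc : ¬ Ctb M (fun _ : Ω => True))
    (hle : Int M (fun q : P × P => le q.1 q.2)) (hrefl : ∀ p, le p p)
    (htr : ∀ p q r, le p q → le q r → le p r) (hc : C3 M le) (hR : Nm M le p0 R) : False := by
  have hRi := hR.int
  have hlt := h.int
  -- a point of `Ω`
  obtain ⟨r₀, y₀, -, -⟩ := hR.tot p0 0 (hrefl p0)
  obtain ⟨ρ, hρ, hρ1, hρ2⟩ := exists_collapse h hseg hunc y₀
  obtain ⟨e, δ, he, hei, heδ⟩ := exists_omega h hunc y₀
  -- the values
  obtain ⟨V, hV, hVm⟩ : ∃ V : INat M → IPow M Ω, IntF M V ∧ ∀ i a, a ∈ V i ↔ ∃ q, R q i a := by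
    refine ⟨fun i => sep M fun a => ∃ q, R q i a, by (repeat' (first | with_reducible exact IntF.id | with_reducible exact IntF.fst' | with_reducible exact IntF.snd' | with_reducible exact IntF.const _ | with_reducible exact Int.const _ | assumption | with_reducible apply Int.and | with_reducible apply Int.or | with_reducible apply Int.not | with_reducible apply Int.imp | with_reducible apply Int.iff | with_reducible apply Int.ne | with_reducible apply Int.eq | with_reducible apply Int.mem | with_reducible apply Int.subset | with_reducible apply Int.ltN | with_reducible apply Int.leN | with_reducible_and_instances apply Int.le | with_reducible_and_instances apply Int.lt | with_reducible apply Int.all | with_reducible apply Int.ex | with_reducible apply IntF.fst | with_reducible apply IntF.snd | with_reducible apply IntF.app | with_reducible apply IntF.inl | with_reducible apply IntF.inr | with_reducible_and_instances apply IntF.mul | with_reducible_and_instances apply IntF.inv | with_reducible_and_instances apply IntF.add | with_reducible_and_instances apply IntF.sub | with_reducible_and_instances apply IntF.neg | with_reducible_and_instances apply IntF.smul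 | with_reducible apply Int.fin | with_reducible apply IntF.sep | with_reducible apply IntF.lam | with_reducible apply IntF.insert | with_reducible apply IntF.singleton | with_reducible apply IntF.union | with_reducible apply IntF.iimage | with_reducible apply IntF.ite | with_reducible apply IntF.the | with_reducible apply IntF.irec | with_reducible apply IntF.succ | with_reducible apply IntF.val | with_reducible apply IntF.mk | (with_reducible refine Int.comp ?_ ?_; assumption) | (with_reducible refine Int.comp₂ ?_ ?_ ?_; assumption) | (with_reducible refine Int.comp₃ ?_ ?_ ?_ ?_; assumption) | (with_reducible refine Int.comp₄ ?_ ?_ ?_ ?_ ?_; assumption) | (with_reducible refine IntF.comp ?_ ?_; assumption) | (with_reducible refine IntF.comp₂ ?_ ?_ ?_; assumption) | (with_reducible refine IntF.comp₃ ?_ ?_ ?_ ?_; assumption) | with_reducible apply IntF.pair)), fun i a => mem_sep (by (repeat' (first | with_reducible exact IntF.id | with_reducible exact IntF.fst' | with_reducible exact IntF.snd' | with_reducible exact IntF.const _ | with_reducible exact Int.const _ | assumption | with_reducible apply Int.and | with_reducible apply Int.or | with_reducible apply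 Int.not | with_reducible apply Int.imp | with_reducible apply Int.iff | with_reducible apply Int.ne | with_reducible apply Int.eq | with_reducible apply Int.mem | with_reducible apply Int.subset | with_reducible apply Int.ltN | with_reducible apply Int.leN | with_reducible_and_instances apply Int.le | with_reducible_and_instances apply Int.lt | with_reducible apply Int.all | with_reducible apply Int.ex | with_reducible apply IntF.fst | with_reducible apply IntF.snd | with_reducible apply IntF.app | with_reducible apply IntF.inl | with_reducible apply IntF.inr | with_reducible_and_instances apply IntF.mul | with_reducible_and_instances apply IntF.inv | with_reducible_and_instances apply IntF.add | with_reducible_and_instances apply IntF.sub | with_reducible_and_instances apply IntF.neg | with_reducible_and_instances apply IntF.smul | with_reducible apply Int.fin | with_reducible apply IntF.sep | with_reducible apply IntF.lam | with_reducible apply IntF.insert | with_reducible apply IntF.singleton | with_reducible apply IntF.union | with_reducible apply IntF.iimage | with_reducible apply IntF.ite | with_reducible apply IntF.the | with_reducible apply IntF.irec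 | with_reducible apply IntF.succ | with_reducible apply IntF.val | with_reducible apply IntF.mk | (with_reducible refine Int.comp ?_ ?_; assumption) | (with_reducible refine Int.comp₂ ?_ ?_ ?_; assumption) | (with_reducible refine Int.comp₃ ?_ ?_ ?_ ?_; assumption) | (with_reducible refine Int.comp₄ ?_ ?_ ?_ ?_ ?_; assumption) | (with_reducible refine IntF.comp ?_ ?_; assumption) | (with_reducible refine IntF.comp₂ ?_ ?_ ?_; assumption) | (with_reducible refine IntF.comp₃ ?_ ?_ ?_ ?_; assumption) | with_reducible apply IntF.pair)))⟩
  obtain ⟨i0, a0, ha0, ha0δ⟩ : ∃ i0 a0, a0 ∈ V i0 ∧ ρ (V i0) a0 = δ := by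
    by_contra hcon
    push Not at hcon
    refine no_cover h hunc hρ hρ1 hV (fun a => ?_) (hseg δ) fun i a ha => ?_
    · obtain ⟨r, n, -, h1⟩ := hR.onto p0 a (hrefl p0)
      exact ⟨n, (hVm n a).2 ⟨r, h1⟩⟩
    · by_contra h1
      obtain ⟨d, hd, h2⟩ := hρ2 _ _ _ ha h1
      exact hcon i d hd h2
  obtain ⟨c, hcI, hcs⟩ := exists_lf (N := M) iwoNn (γ := Ω) (r := fun b n => e n = ρ (V i0) b)
    (by (repeat' (first | with_reducible exact IntF.id | with_reducible exact IntF.fst' | with_reducible exact IntF.snd' | with_reducible exact IntF.const _ | with_reducible exact Int.const _ | assumption | with_reducible apply Int.and | with_reducible apply Int.or | with_reducible apply Int.not | with_reducible apply Int.imp | with_reducible apply Int.iff | with_reducible apply Int.ne | with_reducible apply Int.eq | with_reducible apply Int.mem | with_reducible apply Int.subset | with_reducible apply Int.ltN | with_reducible apply Int.leN | with_reducible_and_instances apply Int.le | with_reducible_and_instances apply Int.lt | with_reducible apply Int.all | with_reducible apply Int.ex | with_reducible apply IntF.fst | with_reducible apply IntF.snd | with_reducible apply IntF.app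 | with_reducible apply IntF.inl | with_reducible apply IntF.inr | with_reducible_and_instances apply IntF.mul | with_reducible_and_instances apply IntF.inv | with_reducible_and_instances apply IntF.add | with_reducible_and_instances apply IntF.sub | with_reducible_and_instances apply IntF.neg | with_reducible_and_instances apply IntF.smul | with_reducible apply Int.fin | with_reducible apply IntF.sep | with_reducible apply IntF.lam | with_reducible apply IntF.insert | with_reducible apply IntF.singleton | with_reducible apply IntF.union | with_reducible apply IntF.iimage | with_reducible apply IntF.ite | with_reducible apply IntF.the | with_reducible apply IntF.irec | with_reducible apply IntF.succ | with_reducible apply IntF.val | with_reducible apply IntF.mk | (with_reducible refine Int.comp ?_ ?_; assumption) | (with_reducible refine Int.comp₂ ?_ ?_ ?_; assumption) | (with_reducible refine Int.comp₃ ?_ ?_ ?_ ?_; assumption) | (with_reducible refine Int.comp₄ ?_ ?_ ?_ ?_ ?_; assumption) | (with_reducible refine IntF.comp ?_ ?_; assumption) | (with_reducible refine IntF.comp₂ ?_ ?_ ?_; assumption) | (with_reducible refine IntF.comp₃ ?_ ?_ ?_ ?_; assumption)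 | with_reducible apply IntF.pair))) 0
  have hcn : ∀ n, ∃ b, b ∈ V i0 ∧ c b = n := by
    intro n
    obtain ⟨d, hd, h1⟩ := hρ2 (V i0) a0 (e n) ha0 (by
      rw [ha0δ]
      exact fun h1 => iwo_asymm h h1 (heδ n))
    exact ⟨d, hd, hei _ _ ((hcs d ⟨n, h1.symm⟩).1.trans h1)⟩
  -- the sets `A b n`
  have hA : IntF M (fun q : Ω × INat M => Av M R i0 q.1 q.2) := int_Av hRi i0
  have hAm : ∀ b n a, a ∈ Av M R i0 b n ↔ ∃ i q, i < n ∧ R q i0 b ∧ R q i a :=
    fun b n a => mem_Av hRi
  set A := Av M R i0 with hAdef
  have hAcov : ∀ b, b ∈ V i0 → ∀ a, ∃ n, a ∈ A b n := by
    intro b hb a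
    obtain ⟨q, hq⟩ := (hVm i0 b).1 hb
    obtain ⟨r, i, hr, h1⟩ := hR.onto q a (hR.le' _ _ _ hq)
    exact ⟨INat.succ i, (hAm _ _ _).2 ⟨i, r, INat.lt_succ_self i, hR.down _ _ _ _ hq hr, h1⟩⟩
  have hAI : ∀ b, IntF M (fun n => A b n) := fun b => IntF.slice hA b
  -- images of collapses are countable
  have himg : ∀ s : IPow M Ω, Ctb M (fun a => a ∈ s) →
      Ctb M (fun x => ∃ a, a ∈ s ∧ ρ s a = x) := by
    intro s hs
    exact Ctb.image (by (repeat' (first | with_reducible exact IntF.id | with_reducible exact IntF.fst' | with_reducible exact IntF.snd' | with_reducible exact IntF.const _ | with_reducible exact Int.const _ | assumption | with_reducible apply Int.and | with_reducible apply Int.or | with_reducible apply Int.not | with_reducible apply Int.imp | with_reducible apply Int.iff | with_reducible apply Int.ne | with_reducible apply Int.eq | with_reducible apply Int.mem | with_reducible apply Int.subset | with_reducible apply Int.ltN | with_reducible apply Int.leN | with_reducible_and_instances apply Int.le | with_reducible_and_instances apply Int.lt | with_reducible apply Int.all | with_reducible apply Int.ex | with_reducible apply IntF.fst | with_reducible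 apply IntF.snd | with_reducible apply IntF.app | with_reducible apply IntF.inl | with_reducible apply IntF.inr | with_reducible_and_instances apply IntF.mul | with_reducible_and_instances apply IntF.inv | with_reducible_and_instances apply IntF.add | with_reducible_and_instances apply IntF.sub | with_reducible_and_instances apply IntF.neg | with_reducible_and_instances apply IntF.smul | with_reducible apply Int.fin | with_reducible apply IntF.sep | with_reducible apply IntF.lam | with_reducible apply IntF.insert | with_reducible apply IntF.singleton | with_reducible apply IntF.union | with_reducible apply IntF.iimage | with_reducible apply IntF.ite | with_reducible apply IntF.the | with_reducible apply IntF.irec | with_reducible apply IntF.succ | with_reducible apply IntF.val | with_reducible apply IntF.mk | (with_reducible refine Int.comp ?_ ?_; assumption) | (with_reducible refine Int.comp₂ ?_ ?_ ?_; assumption) | (with_reducible refine Int.comp₃ ?_ ?_ ?_ ?_; assumption) | (with_reducible refine Int.comp₄ ?_ ?_ ?_ ?_ ?_; assumption) | (with_reducible refine IntF.comp ?_ ?_; assumption) | (with_reducible refine IntF.comp₂ ?_ ?_ ?_; assumption) | (with_reducible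 refine IntF.comp₃ ?_ ?_ ?_ ?_; assumption) | with_reducible apply IntF.pair))) hs (IntF.slice hρ s)
  have hAc : ∀ b n, Ctb M (fun a => a ∈ A b n) := by
    intro b n
    refine (ctb_values hle hrefl htr hc hR i0 (m := fun _ => n) (IntF.const n)).mono
      fun a ha => ?_
    obtain ⟨i, q, h1, h2, h3⟩ := (hAm _ _ _).1 ha
    exact ⟨b, i, q, h1, h2, h3⟩
  -- the function `m`
  have hex : ∀ b, b ∈ V i0 → ∀ k, ∃ n, ∀ a, a ∈ A a0 k →
      ∃ a', a' ∈ A b n ∧ ρ (A b n) a' = ρ (A a0 k) a := by
    intro b hb k
    by_contra hcon
    push Not at hcon
    refine no_cover h hunc hρ hρ1 (hAI b) (hAcov b hb) (himg _ (hAc a0 k)) fun n a ha => ?_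
    obtain ⟨x, hx, h1⟩ := hcon n
    refine hρ2 _ x _ hx fun h2 => ?_
    obtain ⟨d, hd, h3⟩ := hρ2 (A b n) a (ρ (A a0 k) x) ha fun h4 => iwo_asymm h h2 h4
    exact h1 d hd h3
  obtain ⟨m, hm, hms⟩ := exists_lf (N := M) iwoNn (γ := Ω)
    (r := fun b n => ∀ a, a ∈ A a0 (c b) → ∃ a', a' ∈ A b n ∧ ρ (A b n) a' = ρ (A a0 (c b)) a)
    (by (repeat' (first | with_reducible exact IntF.id | with_reducible exact IntF.fst' | with_reducible exact IntF.snd' | with_reducible exact IntF.const _ | with_reducible exact Int.const _ | assumption | with_reducible apply Int.and | with_reducible apply Int.or | with_reducible apply Int.not | with_reducible apply Int.imp | with_reducible apply Int.iff | with_reducible apply Int.ne | with_reducible apply Int.eq | with_reducible apply Int.mem | with_reducible apply Int.subset | with_reducible apply Int.ltN | with_reducible apply Int.leN | with_reducible_and_instances apply Int.le | with_reducible_and_instances apply Int.lt | with_reducible apply Int.all | with_reducible apply Int.ex | with_reducible apply IntF.fst | with_reducible apply IntF.snd | with_reducible apply IntF.app | with_reducible apply IntF.inl | with_reducible apply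 IntF.inr | with_reducible_and_instances apply IntF.mul | with_reducible_and_instances apply IntF.inv | with_reducible_and_instances apply IntF.add | with_reducible_and_instances apply IntF.sub | with_reducible_and_instances apply IntF.neg | with_reducible_and_instances apply IntF.smul | with_reducible apply Int.fin | with_reducible apply IntF.sep | with_reducible apply IntF.lam | with_reducible apply IntF.insert | with_reducible apply IntF.singleton | with_reducible apply IntF.union | with_reducible apply IntF.iimage | with_reducible apply IntF.ite | with_reducible apply IntF.the | with_reducible apply IntF.irec | with_reducible apply IntF.succ | with_reducible apply IntF.val | with_reducible apply IntF.mk | (with_reducible refine Int.comp ?_ ?_; assumption) | (with_reducible refine Int.comp₂ ?_ ?_ ?_; assumption) | (with_reducible refine Int.comp₃ ?_ ?_ ?_ ?_; assumption) | (with_reducible refine Int.comp₄ ?_ ?_ ?_ ?_ ?_; assumption) | (with_reducible refine IntF.comp ?_ ?_; assumption) | (with_reducible refine IntF.comp₂ ?_ ?_ ?_; assumption) | (with_reducible refine IntF.comp₃ ?_ ?_ ?_ ?_; assumption) | with_reducible apply IntF.pair))) 0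
  have hCc := ctb_values hle hrefl htr hc hR i0 hm
  obtain ⟨C, hC⟩ : ∃ C : IPow M Ω, ∀ a, a ∈ C ↔ ∃ b i q, i < m b ∧ R q i0 b ∧ R q i a :=
    ⟨sep M fun a => ∃ b i q, i < m b ∧ R q i0 b ∧ R q i a, fun a => mem_sep (by (repeat' (first | with_reducible exact IntF.id | with_reducible exact IntF.fst' | with_reducible exact IntF.snd' | with_reducible exact IntF.const _ | with_reducible exact Int.const _ | assumption | with_reducible apply Int.and | with_reducible apply Int.or | with_reducible apply Int.not | with_reducible apply Int.imp | with_reducible apply Int.iff | with_reducible apply Int.ne | with_reducible apply Int.eq | with_reducible apply Int.mem | with_reducible apply Int.subset | with_reducible apply Int.ltN | with_reducible apply Int.leN | with_reducible_and_instances apply Int.le | with_reducible_and_instances apply Int.lt | with_reducible apply Int.all | with_reducible apply Int.ex | with_reducible apply IntF.fst | with_reducible apply IntF.snd | with_reducible apply IntF.app | with_reducible apply IntF.inl | with_reducible apply IntF.inr | with_reducible_and_instances apply IntF.mul | with_reducible_and_instances apply IntF.inv | with_reducible_and_instances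 apply IntF.add | with_reducible_and_instances apply IntF.sub | with_reducible_and_instances apply IntF.neg | with_reducible_and_instances apply IntF.smul | with_reducible apply Int.fin | with_reducible apply IntF.sep | with_reducible apply IntF.lam | with_reducible apply IntF.insert | with_reducible apply IntF.singleton | with_reducible apply IntF.union | with_reducible apply IntF.iimage | with_reducible apply IntF.ite | with_reducible apply IntF.the | with_reducible apply IntF.irec | with_reducible apply IntF.succ | with_reducible apply IntF.val | with_reducible apply IntF.mk | (with_reducible refine Int.comp ?_ ?_; assumption) | (with_reducible refine Int.comp₂ ?_ ?_ ?_; assumption) | (with_reducible refine Int.comp₃ ?_ ?_ ?_ ?_; assumption) | (with_reducible refine Int.comp₄ ?_ ?_ ?_ ?_ ?_; assumption) | (with_reducible refine IntF.comp ?_ ?_; assumption) | (with_reducible refine IntF.comp₂ ?_ ?_ ?_; assumption) | (with_reducible refine IntF.comp₃ ?_ ?_ ?_ ?_; assumption) | with_reducible apply IntF.pair)))⟩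
  refine no_cover h hunc hρ hρ1 (hAI a0) (hAcov a0 ha0)
    (himg C (hCc.mono fun a ha => (hC a).1 ha)) fun n a ha => ?_
  obtain ⟨b, hb, rfl⟩ := hcn n
  obtain ⟨a', ha', h1⟩ := (hms b (hex b hb (c b))).1 a ha
  have hsub : ∀ x, x ∈ A b (m b) → x ∈ C := by
    intro x hx
    obtain ⟨i, q, h2, h3, h4⟩ := (hAm _ _ _).1 hx
    exact (hC x).2 ⟨b, i, q, h2, h3, h4⟩
  have h2 := mono h hρ hρ1 hρ2 hsub a' ha'
  obtain ⟨d, hd, h3⟩ := hρ2 C a' _ (hsub a' ha') h2
  exact ⟨d, hd, h3.trans h1⟩

end

end Pool.Agent.Helper672.ZFA.V246.T2H96
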